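import Mathlib

/-!
# Windows of the semigroup generated by 2 and 3 (P6 of MixingRates)
-/

set_option autoImplicit false

namespace Pool.Agent.Helper57.MX

open Real

theorem mul_log_three_ne {k : ℕ} (hk : 0 < k) (j : ℤ) :
    (k : ℝ) * log 3 - j * log 2 ≠ 0 := by
  intro h
  have h3 : 0 < log 3 := log_pos (by norm_num)
  have h2 : 0 < log 2 := log_pos (by norm_num)
  have hj : 0 < j := by
    by_contra hj
    rw [not_lt] at hj
    have h4 : (j : ℝ) ≤ 0 := by exact_mod_cast hj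
    have h5 : 0 < (k : ℝ) * log 3 := mul_pos (by exact_mod_cast hk) h3
    nlinarith
  obtain ⟨m, rfl⟩ : ∃ m : ℕ, j = m := ⟨j.toNat, (Int.toNat_of_nonneg hj.le).symm⟩
  have hm : m ≠ 0 := by rintro rfl; simp at hj
  have h6 : log ((3 : ℝ) ^ k) = log ((2 : ℝ) ^ m) := by
    rw [log_pow, log_pow]
    have : ((m : ℤ) : ℝ) = (m : ℝ) := by norm_cast
    rw [this] at h
    linarith
  have h7 : (3 : ℝ) ^ k = 2 ^ m := by
    rw [← exp_log (show (0 : ℝ) < 3 ^ k by positivity), h6, exp_log (by positivity)]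
  have h8 : (3 : ℕ) ^ k = 2 ^ m := by exact_mod_cast h7
  have h9 : Even ((2 : ℕ) ^ m) := by rw [Nat.even_pow]; exact ⟨even_two, hm⟩
  rw [← h8, Nat.even_pow] at h9
  exact absurd h9.1 (by decide)

/-- P6: every window of logarithmic length `η` above `U` contains, among any `L` consecutive
exponents of `3`, a number `2^a 3^b`. -/
theorem s_units {η : ℝ} (hη : 0 < η) : ∃ L : ℕ, 0 < L ∧ ∀ (U : ℝ) (b0 : ℕ),
    ((b0 + L : ℕ) : ℝ) * log 3 ≤ U → ∃ a b : ℕ, b0 ≤ b ∧ b < b0 + L ∧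
      U ≤ a * log 2 + b * log 3 ∧ a * log 2 + b * log 3 < U + η := by
  have h3 : 0 < log 3 := log_pos (by norm_num)
  have h2 : 0 < log 2 := log_pos (by norm_num)
  obtain ⟨n, hn⟩ := exists_nat_gt (log 2 / η)
  have hn0 : 0 < n := by
    rcases Nat.eq_zero_or_pos n with rfl | h
    · have : 0 < log 2 / η := div_pos h2 hη
      simp only [Nat.cast_zero] at hn
      linarith
    · exact h
  obtain ⟨j, k', hk0, -, hjk⟩ := Real.exists_int_int_abs_mul_sub_le (log 3 / log 2) hn0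
  obtain ⟨k, rfl⟩ : ∃ k : ℕ, k' = k := ⟨k'.toNat, (Int.toNat_of_nonneg hk0.le).symm⟩
  have hk : 0 < k := by exact_mod_cast hk0
  set δ : ℝ := (k : ℝ) * log 3 - j * log 2 with hδ
  have hδ0 : δ ≠ 0 := mul_log_three_ne hk j
  have hδη : |δ| < η := by
    have h4 : δ = ((k : ℤ) * (log 3 / log 2) - j) * log 2 := by
      rw [hδ]; field_simp; push_cast; ring
    rw [h4, abs_mul, abs_of_pos h2]
    have h5 : log 2 < n * η := by rwa [div_lt_iff₀ hη] at hn
    have h6 : (0 : ℝ) < (n : ℝ) + 1 := by positivity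
    calc |((k : ℤ) : ℝ) * (log 3 / log 2) - j| * log 2 ≤ 1 / ((n : ℝ) + 1) * log 2 :=
          mul_le_mul_of_nonneg_right hjk h2.le
      _ = log 2 / (n + 1) := by ring
      _ < η := by
          rw [div_lt_iff₀ h6]
          nlinarith
  have hab : 0 < |δ| := abs_pos.2 hδ0
  set M : ℕ := ⌈log 2 / |δ|⌉₊ with hM
  refine ⟨k * M + 1, by omega, fun U b0 hU => ?_⟩
  -- the starting point
  set a0 : ℤ := ⌈(U - b0 * log 3) / log 2⌉ with ha0
  set v0 : ℝ := a0 * log 2 + b0 * log 3 - U with hv0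
  have hv1 : 0 ≤ v0 := by
    have h4 : (U - b0 * log 3) / log 2 ≤ a0 := Int.le_ceil _
    rw [div_le_iff₀ h2] at h4
    rw [hv0]; linarith
  have hv2 : v0 < log 2 := by
    have h4 : (a0 : ℝ) < (U - b0 * log 3) / log 2 + 1 := Int.ceil_lt_add_one _
    have h5 : (a0 : ℝ) * log 2 < ((U - b0 * log 3) / log 2 + 1) * log 2 :=
      mul_lt_mul_of_pos_right h4 h2
    rw [add_mul, div_mul_cancel₀ _ h2.ne', one_mul] at h5
    rw [hv0]; linarith
  -- enough: an integer `a`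
  suffices hs : ∃ (a : ℤ) (i : ℕ), i ≤ M ∧
      0 ≤ (a : ℝ) * log 2 + ((b0 + k * i : ℕ) : ℝ) * log 3 - U ∧
      (a : ℝ) * log 2 + ((b0 + k * i : ℕ) : ℝ) * log 3 - U < |δ| by
    obtain ⟨a, i, hi, h4, h5⟩ := hs
    have hb : b0 + k * i < b0 + (k * M + 1) := by
      have := Nat.mul_le_mul_left k hi
      omega
    have ha : 0 ≤ a := by
      have h6 : ((b0 + k * i : ℕ) : ℝ) * log 3 ≤ U := by
        refine le_trans (mul_le_mul_of_nonneg_right ?_ h3.le) hU
        exact_mod_cast hb.le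
      have h7 : 0 ≤ (a : ℝ) * log 2 := by linarith
      have h8 : (0 : ℝ) ≤ a := nonneg_of_mul_nonneg_left h7 h2
      exact_mod_cast h8
    obtain ⟨m, rfl⟩ : ∃ m : ℕ, a = m := ⟨a.toNat, (Int.toNat_of_nonneg ha).symm⟩
    have h9 : ((m : ℤ) : ℝ) = (m : ℝ) := by norm_cast
    rw [h9] at h4 h5
    exact ⟨m, b0 + k * i, by omega, hb, by linarith, by linarith⟩
  rcases lt_or_gt_of_ne hδ0 with hneg | hpos
  · -- negative step
    have habs : |δ| = -δ := abs_of_neg hneg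
    set i : ℕ := ⌊v0 / |δ|⌋₊ with hi
    have h4 : (i : ℝ) ≤ v0 / |δ| := Nat.floor_le (div_nonneg hv1 hab.le)
    have h5 : v0 / |δ| < i + 1 := Nat.lt_floor_add_one _
    rw [le_div_iff₀ hab] at h4
    rw [div_lt_iff₀ hab] at h5
    refine ⟨a0 - j * i, i, ?_, ?_, ?_⟩
    · have h6 : (i : ℝ) ≤ log 2 / |δ| := by
        rw [le_div_iff₀ hab]; linarith
      exact_mod_cast h6.trans (Nat.le_ceil _)
    · have : ((a0 - j * i : ℤ) : ℝ) * log 2 + ((b0 + k * i : ℕ) : ℝ) * log 3 - U =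
          v0 - i * |δ| := by
        rw [habs, hδ, hv0]; push_cast; ring
      rw [this]; linarith
    · have : ((a0 - j * i : ℤ) : ℝ) * log 2 + ((b0 + k * i : ℕ) : ℝ) * log 3 - U =
          v0 - i * |δ| := by
        rw [habs, hδ, hv0]; push_cast; ring
      rw [this]; linarith
  · -- positive step
    have habs : |δ| = δ := abs_of_pos hpos
    set i : ℕ := ⌈(log 2 - v0) / |δ|⌉₊ with hi
    have h4 : (log 2 - v0) / |δ| ≤ i := Nat.le_ceil _
    have h5 : (i : ℝ) < (log 2 - v0) / |δ| + 1 :=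
      Nat.ceil_lt_add_one (div_nonneg (by linarith) hab.le)
    have h5' : (i : ℝ) * |δ| < ((log 2 - v0) / |δ| + 1) * |δ| := mul_lt_mul_of_pos_right h5 hab
    rw [add_mul, div_mul_cancel₀ _ hab.ne', one_mul] at h5'
    rw [div_le_iff₀ hab] at h4
    refine ⟨a0 - j * i - 1, i, ?_, ?_, ?_⟩
    · refine Nat.ceil_mono ?_
      exact div_le_div_of_nonneg_right (by linarith) hab.le
    · have : ((a0 - j * i - 1 : ℤ) : ℝ) * log 2 + ((b0 + k * i : ℕ) : ℝ) * log 3 - U =
          v0 + i * |δ| - log 2 := by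
        rw [habs, hδ, hv0]; push_cast; ring
      rw [this]; linarith
    · have : ((a0 - j * i - 1 : ℤ) : ℝ) * log 2 + ((b0 + k * i : ℕ) : ℝ) * log 3 - U =
          v0 + i * |δ| - log 2 := by
        rw [habs, hδ, hv0]; push_cast; ring
      rw [this]; linarith

end Pool.Agent.Helper57.MX
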