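import Pool.Agent.Helper87.MX.Fr
import Pool.Agent.Helper12.MX.Cov

/-!
# MixingRates, W2: the entropy step with balls
-/

set_option autoImplicit false

namespace Pool.Agent.Helper57.MX

open MeasureTheory Metric Pool.Agent.Helper87.MX

/-- almost every point has balls of positive measure -/
theorem ae_ball_pos (μ : Measure Tor) {ρ : ℝ} (hρ : 0 < ρ) :
    ∀ᵐ x ∂μ, 0 < μ (closedBall x ρ) := by
  rw [ae_iff]
  by_contra hne
  obtain ⟨x, hx, h⟩ := exists_mem_forall_mem_nhdsWithin_pos_measure hne
  exact hx (h _ (mem_nhdsWithin_of_mem_nhds (closedBall_mem_nhds x hρ)))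

/-- the pointwise inequality on the bad set -/
theorem log_le_div_add {t a : ℝ} (ht : 0 < t) (ha : 0 < a) :
    Real.log t ≤ t / a + Real.log a - 1 := by
  have h := Real.log_le_sub_one_of_pos (div_pos ht ha)
  rw [Real.log_div ht.ne' ha.ne'] at h
  linarith

section

variable (μ : Measure Tor) [IsProbabilityMeasure μ] {r : ℝ}

/-- the entropy step, over the covering inequality (3) -/
theorem step_aux (hr : 0 < r)
    (hm : ∀ ρ : ℝ, Measurable fun x => μ (closedBall x ρ))
    (hmA : ∀ (A : Set Tor), MeasurableSet A → Measurable fun x => μ (closedBall x r ∩ A))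
    (h3 : ∀ A : Set Tor, MeasurableSet A →
      ∫⁻ x, μ (closedBall x r ∩ A) * (μ (closedBall x (r / 4)))⁻¹ ∂μ ≤ 8 * μ A)
    (G : Set Tor) (hG : MeasurableSet G)
    (hGr : ∀ x ∈ G, ∀ y ∈ G, dist x y ≤ r → dist x y ≤ r / 4) :
    Integrable (fun x => Real.log (μ.real (closedBall x r) / μ.real (closedBall x (r / 4)))) μ ∧
    ∫ x, Real.log (μ.real (closedBall x r) / μ.real (closedBall x (r / 4))) ∂μ ≤
      8 * μ.real Gᶜ + μ.real Gᶜ * Real.log (8 / μ.real Gᶜ) := by
  have hr4 : 0 < r / 4 := by positivity
  have hsub : ∀ x : Tor, closedBall x (r / 4) ⊆ closedBall x r := fun x =>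
    closedBall_subset_closedBall (by linarith)
  -- the quotient as a real function
  set R : Tor → ℝ := fun x => μ.real (closedBall x r) / μ.real (closedBall x (r / 4)) with hR
  set T : Set Tor → Tor → ℝ := fun A x =>
    μ.real (closedBall x r ∩ A) / μ.real (closedBall x (r / 4)) with hT
  have hTpos : ∀ A x, 0 ≤ T A x := fun A x => div_nonneg measureReal_nonneg measureReal_nonneg
  have hTmeas : ∀ A, MeasurableSet A → Measurable (T A) := fun A hA =>
    (hmA A hA).ennreal_toReal.div (hm _).ennreal_toReal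
  have hTlin : ∀ A, MeasurableSet A → ∫⁻ x, ENNReal.ofReal (T A x) ∂μ ≤ 8 * μ A := by
    intro A hA
    refine le_trans (lintegral_mono_ae ?_) (h3 A hA)
    filter_upwards [ae_ball_pos μ hr4] with x hx
    rw [hT]
    simp only
    rw [div_eq_mul_inv, ENNReal.ofReal_mul measureReal_nonneg, measureReal_def, measureReal_def,
      ENNReal.ofReal_toReal (measure_ne_top _ _)]
    refine mul_le_mul_right ?_ _
    rw [← ENNReal.toReal_inv, ENNReal.ofReal_toReal]
    exact ENNReal.inv_ne_top.2 hx.ne'
  have hTint : ∀ A, MeasurableSet A → Integrable (T A) μ := by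
    intro A hA
    refine ⟨(hTmeas A hA).aestronglyMeasurable, ?_⟩
    rw [hasFiniteIntegral_iff_ofReal (Filter.Eventually.of_forall (hTpos A))]
    refine (hTlin A hA).trans_lt ?_
    exact ENNReal.mul_lt_top (by norm_num) (measure_lt_top μ A)
  have hTle : ∀ A, MeasurableSet A → ∫ x, T A x ∂μ ≤ 8 * μ.real A := by
    intro A hA
    rw [integral_eq_lintegral_of_nonneg_ae (Filter.Eventually.of_forall (hTpos A))
      (hTmeas A hA).aestronglyMeasurable]
    have h := ENNReal.toReal_mono (ENNReal.mul_ne_top (by norm_num) (measure_ne_top μ A))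
      (hTlin A hA)
    rwa [ENNReal.toReal_mul, ENNReal.toReal_ofNat] at h
  have hRT : R = T Set.univ := by
    funext x; simp only [hR, hT, Set.inter_univ]
  have hRint : Integrable R μ := by rw [hRT]; exact hTint _ MeasurableSet.univ
  have hR1 : ∀ᵐ x ∂μ, 1 ≤ R x := by
    filter_upwards [ae_ball_pos μ hr4] with x hx
    have h1 : 0 < μ.real (closedBall x (r / 4)) := ENNReal.toReal_pos hx.ne' (measure_ne_top _ _)
    rw [hR]
    simp only
    rw [le_div_iff₀ h1, one_mul]
    exact measureReal_mono (hsub x)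
  have hlogm : Measurable fun x => Real.log (R x) := by
    rw [hRT]; exact Real.measurable_log.comp (hTmeas _ MeasurableSet.univ)
  have hlogint : Integrable (fun x => Real.log (R x)) μ := by
    refine Integrable.mono' hRint hlogm.aestronglyMeasurable ?_
    filter_upwards [hR1] with x hx
    rw [Real.norm_eq_abs, abs_of_nonneg (Real.log_nonneg hx)]
    have := Real.log_le_sub_one_of_pos (by linarith : 0 < R x)
    linarith
  refine ⟨hlogint, ?_⟩
  set κ := μ.real Gᶜ with hκ
  have hκ0 : 0 ≤ κ := measureReal_nonneg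
  -- the constant
  set a : ℝ := if κ = 0 then 1 else 8 / κ with ha
  have ha0 : 0 < a := by
    rw [ha]
    split_ifs with h
    · exact one_pos
    · exact div_pos (by norm_num) (lt_of_le_of_ne hκ0 (Ne.symm h))
  -- the pointwise bound
  have hpt : ∀ᵐ x ∂μ, Real.log (R x) ≤
      T Gᶜ x + Gᶜ.indicator (fun x => R x / a + (Real.log a - 1)) x := by
    filter_upwards [ae_ball_pos μ hr4, hR1] with x hx hx1
    have h1 : 0 < μ.real (closedBall x (r / 4)) := ENNReal.toReal_pos hx.ne' (measure_ne_top _ _)
    by_cases hxG : x ∈ G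
    · rw [Set.indicator_of_notMem (by simpa using hxG), add_zero]
      refine (Real.log_le_sub_one_of_pos (by linarith : 0 < R x)).trans ?_
      rw [hR, hT]
      simp only
      rw [div_sub_one h1.ne']
      refine div_le_div_of_nonneg_right ?_ h1.le
      have h2 : closedBall x r ⊆ closedBall x (r / 4) ∪ (closedBall x r ∩ Gᶜ) := by
        intro y hy
        by_cases hyG : y ∈ G
        · left
          rw [mem_closedBall] at hy ⊢
          exact hGr y hyG x hxG hy
        · right; exact ⟨hy, hyG⟩
      have h4 := (measureReal_mono (μ := μ) h2).trans (measureReal_union_le _ _)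
      linarith
    · rw [Set.indicator_of_mem (by simpa using hxG)]
      have h5 := log_le_div_add (by linarith : 0 < R x) ha0
      have h6 := hTpos Gᶜ x
      linarith
  have hGc : MeasurableSet Gᶜ := hG.compl
  have hiR : Integrable (fun x => R x / a) μ := hRint.div_const a
  have hi2 : Integrable (fun x => R x / a + (Real.log a - 1)) μ :=
    hiR.add (integrable_const _)
  have hint := integral_mono_ae hlogint ((hTint _ hGc).add (hi2.indicator hGc)) hpt
  refine hint.trans ?_
  rw [integral_add' (hTint _ hGc) (hi2.indicator hGc), integral_indicator hGc]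
  have h7 := hTle _ hGc
  rw [← hκ] at h7
  suffices h8 : ∫ x in Gᶜ, (R x / a + (Real.log a - 1)) ∂μ ≤ κ * Real.log (8 / κ) by
    linarith
  by_cases hk : κ = 0
  · have h9 : μ Gᶜ = 0 := by
      rw [hκ, measureReal_def, ENNReal.toReal_eq_zero_iff] at hk
      exact hk.resolve_right (measure_ne_top _ _)
    rw [Measure.restrict_eq_zero.2 h9, integral_zero_measure, hk, zero_mul]
  · have hκ' : 0 < κ := lt_of_le_of_ne hκ0 (Ne.symm hk)
    have ha' : a = 8 / κ := by rw [ha, if_neg hk]
    rw [integral_add hiR.integrableOn (integrable_const _)]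
    have h10 : ∫ x in Gᶜ, R x / a ∂μ ≤ κ := by
      have h11 : ∫ x in Gᶜ, R x / a ∂μ ≤ ∫ x, R x / a ∂μ := by
        refine setIntegral_le_integral hiR ?_
        filter_upwards [hR1] with x hx
        exact div_nonneg (by linarith) ha0.le
      refine h11.trans ?_
      rw [integral_div, div_le_iff₀ ha0, ha', mul_div_cancel₀ _ hκ'.ne', hRT]
      have := hTle Set.univ MeasurableSet.univ
      simpa using this
    have h12 : ∫ _ in Gᶜ, (Real.log a - 1) ∂μ = κ * (Real.log a - 1) := by
      rw [setIntegral_const, smul_eq_mul]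
    rw [h12, ha']
    rw [ha'] at h10
    linarith

end

/-- **W2** -/
theorem s_W2 (hb : S_W2b) : S_W2 := by
  intro μ hμ r G hr hG hGr
  have hr4 : 0 < r / 4 := by positivity
  obtain ⟨-, h2⟩ := step_aux μ hr (fun ρ => Pool.Agent.Helper12.MX.meas_ball μ ρ)
    (fun A hA => Pool.Agent.Helper12.MX.meas_ball_inter μ r hA)
    (fun A hA => Pool.Agent.Helper12.MX.lintegral_ball_inter μ hr hA) G hG
    (fun x hx y hy h => by
      rw [dist_eq_norm] at h ⊢
      exact hGr x hx y hy h)
  have i1 := hb μ hμ r hr
  have i2 := hb μ hμ (r / 4) hr4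
  have h3 : phi μ (r / 4) - phi μ r =
      ∫ x, Real.log (μ.real (closedBall x r) / μ.real (closedBall x (r / 4))) ∂μ := by
    rw [phi, phi, ← integral_sub i2 i1]
    refine integral_congr_ae ?_
    filter_upwards [ae_ball_pos μ hr4, ae_ball_pos μ hr] with x hx hx'
    have h4 : 0 < μ.real (closedBall x (r / 4)) := ENNReal.toReal_pos hx.ne' (measure_ne_top _ _)
    have h5 : 0 < μ.real (closedBall x r) := ENNReal.toReal_pos hx'.ne' (measure_ne_top _ _)
    rw [Real.log_div h5.ne' h4.ne']
    ring
  have h6 : Pool.Agent.Helper25.MX.psi (μ.real Gᶜ) =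
      8 * μ.real Gᶜ + μ.real Gᶜ * Real.log (8 / μ.real Gᶜ) := by
    rw [Pool.Agent.Helper25.MX.psi, Real.negMulLog]
    by_cases hk : μ.real Gᶜ = 0
    · rw [hk]; simp
    · rw [Real.log_div (by norm_num) hk]
      ring
  rw [h6]
  linarith

end Pool.Agent.Helper57.MX
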