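import Pool.Agent.Helper87.MX.Fr3
import Pool.Agent.Helper17.GH.Gap

/-!
# MixingRates, UN: uniform divergence
-/

set_option autoImplicit false

namespace Pool.Agent.Helper57.MX

open MeasureTheory Finset Pool.Agent.Helper87.MX

/-- the scales `2 ^ 2 ^ i` which see `j` -/
theorem geo (j N : ℕ) : ∑ i ∈ (range N).filter (fun i => j < 2 ^ (2 ^ i)), (1 / (2 : ℝ) ^ i) ≤
    4 / Real.log ((j : ℝ) + 2) := by
  have hlog : 0 < Real.log ((j : ℝ) + 2) := Real.log_pos (by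
    have : (0 : ℝ) ≤ j := Nat.cast_nonneg j
    linarith)
  by_cases hex : ∃ i, j < 2 ^ (2 ^ i)
  · classical
    set m := Nat.find hex with hm
    have hm1 : j < 2 ^ (2 ^ m) := Nat.find_spec hex
    have h1 : ∑ i ∈ (range N).filter (fun i => j < 2 ^ (2 ^ i)), (1 / (2 : ℝ) ^ i) ≤
        ∑ i ∈ Ico m (m + N), (1 / (2 : ℝ) ^ i) := by
      refine Finset.sum_le_sum_of_subset_of_nonneg ?_ fun i _ _ => by positivity
      intro i hi
      rw [mem_filter, mem_range] at hi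
      rw [mem_Ico]
      exact ⟨Nat.find_min' hex hi.2, by omega⟩
    have h2 : ∑ i ∈ Ico m (m + N), (1 / (2 : ℝ) ^ i) ≤ 2 / 2 ^ m := by
      rw [Finset.sum_Ico_eq_sum_range]
      have h3 : ∀ i ∈ range (m + N - m), 1 / (2 : ℝ) ^ (m + i) =
          (1 / 2 ^ m) * (1 / 2) ^ i := by
        intro i _
        rw [pow_add, one_div_pow]
        field_simp
      rw [Finset.sum_congr rfl h3, ← Finset.mul_sum]
      have h4 : ∑ i ∈ range (m + N - m), ((1 : ℝ) / 2) ^ i ≤ 2 := by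
        rw [geom_sum_eq (by norm_num)]
        have : (0 : ℝ) ≤ (1 / 2) ^ (m + N - m) := by positivity
        rw [div_le_iff_of_neg (by norm_num)]
        linarith
      calc (1 / 2 ^ m) * ∑ i ∈ range (m + N - m), ((1 : ℝ) / 2) ^ i ≤ (1 / 2 ^ m) * 2 :=
            mul_le_mul_of_nonneg_left h4 (by positivity)
        _ = 2 / 2 ^ m := by ring
    refine h1.trans (h2.trans ?_)
    rw [div_le_div_iff₀ (by positivity) hlog]
    have h5 : (j : ℝ) + 2 ≤ 2 ^ (2 ^ m) * 2 ^ 1 := by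
      have h6 : j + 1 ≤ 2 ^ (2 ^ m) := hm1
      have h7 : ((j : ℝ) + 1) ≤ 2 ^ (2 ^ m) := by exact_mod_cast h6
      have h8 : (1 : ℝ) ≤ 2 ^ (2 ^ m) := one_le_pow₀ (by norm_num)
      linarith
    have h6 : Real.log ((j : ℝ) + 2) ≤ (2 ^ m + 1) * Real.log 2 := by
      refine (Real.log_le_log (by positivity) h5).trans ?_
      rw [← pow_add, Real.log_pow]
      push_cast
      exact le_rfl
    have h7 : Real.log 2 ≤ 1 := by
      have := Real.log_two_lt_d9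
      linarith
    have h8 : (1 : ℝ) ≤ 2 ^ m := one_le_pow₀ (by norm_num)
    nlinarith
  · push Not at hex
    have h1 : (range N).filter (fun i => j < 2 ^ (2 ^ i)) = ∅ := by
      rw [filter_eq_empty_iff]
      intro i _
      exact not_lt.2 (hex i)
    rw [h1, Finset.sum_empty]
    exact div_nonneg (by norm_num) hlog.le

theorem geo_Ico (j₀ N : ℕ) : ∑ i ∈ Ico j₀ N, (1 / (2 : ℝ) ^ i) ≤ 2 / 2 ^ j₀ := by
  rw [Finset.sum_Ico_eq_sum_range]
  have h3 : ∀ i ∈ range (N - j₀), 1 / (2 : ℝ) ^ (j₀ + i) = (1 / 2 ^ j₀) * (1 / 2) ^ i := by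
    intro i _
    rw [pow_add, one_div_pow]
    field_simp
  rw [Finset.sum_congr rfl h3, ← Finset.mul_sum]
  have h4 : ∑ i ∈ range (N - j₀), ((1 : ℝ) / 2) ^ i ≤ 2 := by
    rw [geom_sum_eq (by norm_num)]
    have : (0 : ℝ) ≤ (1 / 2) ^ (N - j₀) := by positivity
    rw [div_le_iff_of_neg (by norm_num)]
    linarith
  calc (1 / 2 ^ j₀) * ∑ i ∈ range (N - j₀), ((1 : ℝ) / 2) ^ i ≤ (1 / 2 ^ j₀) * 2 :=
        mul_le_mul_of_nonneg_left h4 (by positivity)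
    _ = 2 / 2 ^ j₀ := by ring

/-- `v + v log (1 / v) ≤ 1` -/
theorem term_le_one {v : ℝ} (h0 : 0 ≤ v) : v + Real.negMulLog v ≤ 1 := by
  rcases h0.eq_or_lt with h | h
  · rw [← h]; simp
  · have h1 : Real.log v⁻¹ ≤ v⁻¹ - 1 := Real.log_le_sub_one_of_pos (inv_pos.2 h)
    rw [Real.log_inv] at h1
    have h2 : v * -Real.log v ≤ v * (v⁻¹ - 1) := mul_le_mul_of_nonneg_left h1 h.le
    have h3 : v * (v⁻¹ - 1) = 1 - v := by field_simp
    rw [h3] at h2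
    unfold Real.negMulLog
    linarith

/-- the summation -/
theorem sum_aux {a H : ℕ → ℝ} (ha : ∀ j, 0 ≤ a j) (ha1 : ∀ j, a j ≤ 1)
    (hH : ∀ K, H K ≤ ∑ j ∈ range K, a j) (j₀ j₁ N : ℕ) :
    ∑ i ∈ Ico j₀ N, H (2 ^ 2 ^ i) / 2 ^ i ≤ j₁ * (2 / 2 ^ j₀) +
      4 * ∑ j ∈ Ico j₁ (2 ^ 2 ^ N), a j / Real.log ((j : ℝ) + 2) := by
  have hsub : ∀ i ∈ Ico j₀ N, H (2 ^ 2 ^ i) / 2 ^ i ≤
      j₁ * (1 / (2 : ℝ) ^ i) +
        ∑ j ∈ Ico j₁ (2 ^ 2 ^ N), if j < 2 ^ (2 ^ i) then a j / 2 ^ i else 0 := by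
    intro i hi
    rw [mem_Ico] at hi
    have hp : (0 : ℝ) < 2 ^ i := by positivity
    have h1 : ∑ j ∈ range (2 ^ 2 ^ i), a j ≤
        j₁ + ∑ j ∈ Ico j₁ (2 ^ 2 ^ N), if j < 2 ^ (2 ^ i) then a j else 0 := by
      have h2 : range (2 ^ 2 ^ i) ⊆ range j₁ ∪ (Ico j₁ (2 ^ 2 ^ N)).filter
          (fun j => j < 2 ^ (2 ^ i)) := by
        intro j hj
        rw [mem_range] at hj
        rw [mem_union, mem_range, mem_filter, mem_Ico]
        by_cases hjj : j < j₁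
        · exact Or.inl hjj
        · right
          refine ⟨⟨by omega, hj.trans_le ?_⟩, hj⟩
          exact Nat.pow_le_pow_right (by norm_num)
            (Nat.pow_le_pow_right (by norm_num) hi.2.le)
      refine (Finset.sum_le_sum_of_subset_of_nonneg h2 fun j _ _ => ha j).trans ?_
      refine (Finset.sum_union_inter (s₁ := range j₁)
        (s₂ := (Ico j₁ (2 ^ 2 ^ N)).filter (fun j => j < 2 ^ (2 ^ i))) (f := a) ▸
          le_add_of_nonneg_right (Finset.sum_nonneg fun j _ => ha j)).trans ?_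
      refine add_le_add ?_ ?_
      · refine (Finset.sum_le_sum fun j _ => ha1 j).trans ?_
        simp
      · rw [Finset.sum_filter]
    rw [div_le_iff₀ hp, add_mul, mul_assoc, one_div_mul_cancel hp.ne', mul_one, Finset.sum_mul]
    refine (hH _).trans (h1.trans ?_)
    refine add_le_add_right (Finset.sum_le_sum fun j _ => ?_) _
    split_ifs
    · rw [div_mul_cancel₀ _ hp.ne']
    · rw [zero_mul]
  refine (Finset.sum_le_sum hsub).trans ?_
  have e2 : (4 : ℝ) * ∑ j ∈ Ico j₁ (2 ^ 2 ^ N), a j / Real.log ((j : ℝ) + 2) =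
      ∑ j ∈ Ico j₁ (2 ^ 2 ^ N), 4 * (a j / Real.log ((j : ℝ) + 2)) := Finset.mul_sum _ _ _
  rw [Finset.sum_add_distrib, ← Finset.mul_sum, Finset.sum_comm, e2]
  refine add_le_add (mul_le_mul_of_nonneg_left (geo_Ico j₀ N) (Nat.cast_nonneg _))
    (Finset.sum_le_sum fun j _ => ?_)
  have h5 : ∑ i ∈ Ico j₀ N, (if j < 2 ^ (2 ^ i) then a j / 2 ^ i else 0) ≤
      ∑ i ∈ range N, (if j < 2 ^ (2 ^ i) then a j / 2 ^ i else 0) := by
    refine Finset.sum_le_sum_of_subset_of_nonneg ?_ fun i _ _ => ?_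
    · intro i hi
      rw [mem_Ico] at hi
      exact mem_range.2 hi.2
    · split_ifs
      · exact div_nonneg (ha j) (by positivity)
      · exact le_rfl
  refine h5.trans ?_
  rw [← Finset.sum_filter]
  have h6 : ∑ i ∈ (range N).filter (fun i => j < 2 ^ (2 ^ i)), a j / 2 ^ i =
      a j * ∑ i ∈ (range N).filter (fun i => j < 2 ^ (2 ^ i)), (1 / (2 : ℝ) ^ i) := by
    rw [Finset.mul_sum]
    exact Finset.sum_congr rfl fun i _ => by ring
  rw [h6]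
  calc a j * _ ≤ a j * (4 / Real.log ((j : ℝ) + 2)) := mul_le_mul_of_nonneg_left (geo j N) (ha j)
    _ = 4 * (a j / Real.log ((j : ℝ) + 2)) := by ring

/-- the abstract form -/
theorem un_aux : ∀ j₁ : ℕ, ∃ δ : ℝ, 0 < δ ∧
    ∀ (μ : Measure Tor), IsProbabilityMeasure μ → Inv 2 μ → Inv 3 μ → (∀ x, μ.real {x} < δ) →
    ∀ v : ℕ → ℝ, (∀ j, 0 ≤ v j) → (∀ j, v j ≤ 1) →
      (∀ K : ℕ, ent μ K ≤ ∑ j ∈ range K, (v j + Real.negMulLog (v j))) →
      ∃ J : ℕ, 1 / 96 < ∑ j ∈ Ico j₁ J, (v j + Real.negMulLog (v j)) / Real.log ((j : ℝ) + 2) := by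
  intro j₁
  obtain ⟨n, hn⟩ := exists_nat_gt (48 * (j₁ : ℝ))
  have hn2 : (n : ℝ) < 2 ^ n := by exact_mod_cast Nat.lt_two_pow_self
  obtain ⟨δ, hδ, h⟩ := Helper17.GH.gap (n + 3) (by omega)
  refine ⟨δ, hδ, fun μ hμ h2 h3 hat v hv0 hv1 hv => ?_⟩
  obtain ⟨N, hN⟩ := h μ hμ h2 h3 hat
  have ha : ∀ j, 0 ≤ v j + Real.negMulLog (v j) := fun j =>
    add_nonneg (hv0 j) (Real.negMulLog_nonneg (hv0 j) (hv1 j))
  have hs := sum_aux ha (fun j => term_le_one (hv0 j)) hv (n + 3) j₁ N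
  refine ⟨2 ^ 2 ^ N, ?_⟩
  have h4 : (j₁ : ℝ) * (2 / 2 ^ (n + 3)) ≤ 1 / 24 := by
    have h5 : (0 : ℝ) < 2 ^ (n + 3) := by positivity
    rw [mul_div_assoc', div_le_iff₀ h5, pow_add]
    norm_num
    linarith
  have h6 : (1 : ℝ) / 12 < ∑ i ∈ Ico (n + 3) N, ent μ (2 ^ 2 ^ i) / 2 ^ i := hN
  linarith

/-- **UN** -/
theorem s_UN (hAR : S_AR) : S_UN := by
  refine ⟨1 / 96, by norm_num, fun j₁ => ?_⟩
  obtain ⟨δ, hδ, h⟩ := un_aux j₁
  refine ⟨δ, hδ, fun μ hμ h2 h3 hat k c F hk hc hF => ?_⟩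
  exact h μ hμ h2 h3 hat (fun j => μ.real {x | ‖c‖ / 2 ≤ ‖rav 3 k (F j) x - c‖})
    (fun j => measureReal_nonneg) (fun j => measureReal_le_one)
    (fun K => hAR μ hμ h2 k c F hk hc hF K)

/-- **UNo** -/
theorem s_UNo (hAR : S_ARo) : S_UNo := by
  refine ⟨1 / 96, by norm_num, fun j₁ => ?_⟩
  obtain ⟨δ, hδ, h⟩ := un_aux j₁
  refine ⟨δ, hδ, fun μ hμ h2 h3 hat P hP => ?_⟩
  exact h μ hμ h2 h3 hat (fun j => far μ (P j)) (fun j => measureReal_nonneg)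
    (fun j => measureReal_le_one) (fun K => hAR μ hμ h2 P hP K)

end Pool.Agent.Helper57.MX
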